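import Pool.Agent.U430.ER.Final

/-!
# A uniformly elliptic environment with `μ = θ = 1` whose excited random walk is right transient

An identically piled environment is a sequence `p : ℕ → ℝ`; `p i` is the probability of a step to the
right at the `(i + 1)`-st visit to a site.  From `Pool.Agent.N276.ER`:

* `stackLaw p`: the law of independent trials `s 0, s 1, ...` with `P (s i = true) = p i`;
* `U x s`: the number of successes in `s` before the `x`-th failure;
* `IsERW p P X`: under the probability measure `P` the process `X` with values in `ℤ` starts at `0`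
  and, given the path up to time `n`, steps to the right with probability `p j`, where `j` is the
  number of the earlier visits to the present site, and to the left otherwise.

The environment is `p i = 1 / 2 + A (i + 1) - A i` where `A n = 1 / 2 + 2 / log (n + 2)` for `n ≥ 100`
and `A` is linear on `[0, 100]` with `A 0 = 0`: the accumulated drift `2 A n` of the first `n` cookies
tends to `1` from above, like `1 + 4 / log n`.

Proof of the transience: the chain of the upcrossings of an excursion to the right is `Z 0 = 1`,
`Z (k + 1) = U (Z k) (s k)` with independent stacks `s k`; the function `1 / log (x + 3)` is a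
supermartingale for large values, hence the chain survives with positive probability; the chain of the
downcrossings to the left is dominated by a chain with non-increasing mean, which dies; and a zero-one
law gives infinitely many sites below which the walk never returns.
-/

set_option autoImplicit false

open MeasureTheory Filter Topology

namespace Pool.Agent.Results.MP_758450_pr.TransientExample

open Pool.Agent.N276.ER (stackLaw U IsERW)

/-- `E[U(x)]` -/
noncomputable def meanU (p : ℕ → ℝ) (x : ℕ) : ℝ := ∫ s, (U x s : ℝ) ∂(stackLaw p)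

/-- `ρ(x) = E[U(x) - μ x]` -/
noncomputable def rho (p : ℕ → ℝ) (μ : ℝ) (x : ℕ) : ℝ := ∫ s, ((U x s : ℝ) - μ * x) ∂(stackLaw p)

/-- `ν(x) = E[(U(x) - μ x)²] / x` -/
noncomputable def nu (p : ℕ → ℝ) (μ : ℝ) (x : ℕ) : ℝ :=
  (∫ s, ((U x s : ℝ) - μ * x) ^ 2 ∂(stackLaw p)) / x

/-- `θ(x) = 2 ρ(x) / ν(x)` -/
noncomputable def theta (p : ℕ → ℝ) (μ : ℝ) (x : ℕ) : ℝ := 2 * rho p μ x / nu p μ x

universe u

/-- There is an identically piled, uniformly elliptic environment `p` (even `49/100 ≤ p i ≤ 51/100`
for all `i`) with `μ = 1` and `θ = 1` whose excited random walk is right transient: `U(x)` is square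
integrable, `E[U(x)] / x → 1`, `θ(x) → 1`, an excited random walk in this environment exists, and every
excited random walk in this environment tends to `+∞` almost surely. -/
theorem result : ∃ p : ℕ → ℝ,
    (∀ i, 49 / 100 ≤ p i ∧ p i ≤ 51 / 100) ∧
    (∀ x : ℕ, Integrable (fun s => (U x s : ℝ)) (stackLaw p) ∧
      Integrable (fun s => (U x s : ℝ) ^ 2) (stackLaw p)) ∧
    Tendsto (fun x : ℕ => meanU p x / x) atTop (𝓝 1) ∧
    Tendsto (fun x : ℕ => theta p 1 x) atTop (𝓝 1) ∧
    (∃ (Ω : Type) (_ : MeasurableSpace Ω) (P : Measure Ω) (X : ℕ → Ω → ℤ), IsERW p P X) ∧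
    ∀ (Ω : Type u) [MeasurableSpace Ω] (P : Measure Ω) (X : ℕ → Ω → ℤ), IsERW p P X →
      ∀ᵐ ω ∂P, Tendsto (fun n => X n ω) atTop atTop := by
  have hp := Pool.Agent.U430.ER.env.2.2.2.2.2
  obtain ⟨h1, h2, h3⟩ := Pool.Agent.U430.ER.lim
  refine ⟨Pool.Agent.N276.ER.pp, hp, fun x => ?_, h1, ?_, ?_, ?_⟩
  · obtain ⟨i1, i2, -⟩ := Pool.Agent.U430.ER.wald' _ hp x
    exact ⟨i1, i2⟩
  · have h4 := (h2.const_mul 2).div h3 (by norm_num)
    norm_num at h4
    refine h4.congr fun x => ?_
    simp only [theta, rho, nu, one_mul]
    rfl
  · exact ⟨_, _, _, _, Pool.Agent.U430.ER.erwX⟩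
  · intro Ω _ P X hX
    exact Pool.Agent.U430.ER.transfer _ _ _ _ _ _ _ _ _ Pool.Agent.U430.ER.erwX hX
      Pool.Agent.U430.ER.transient

end Pool.Agent.Results.MP_758450_pr.TransientExample
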